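import Pool.Agent.Y892.AN.Od

/-!
Solvable automorphic loops of odd order: every nontrivial normal subloop contains a nontrivial
elementary abelian normal subloop inside the middle nucleus.
-/

set_option autoImplicit false

universe u

namespace Pool.Agent.Results.MP_7090ba_al.NormalSubloops

/-- A loop with underlying set `Q`, product `op` and neutral element `e`. -/
structure Loop (Q : Type u) where
  op : Q → Q → Q
  e : Q
  one_op : ∀ x, op e x = x
  op_one : ∀ x, op x e = x
  bijL : ∀ x, Function.Bijective (fun y => op x y)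
  bijR : ∀ x, Function.Bijective (fun y => op y x)

namespace Loop

variable {Q : Type u} (A : Loop Q)

/-- The left translation `y ↦ x y`. -/
noncomputable def L (x : Q) : Equiv.Perm Q := Equiv.ofBijective _ (A.bijL x)

/-- The right translation `y ↦ y x`. -/
noncomputable def R (x : Q) : Equiv.Perm Q := Equiv.ofBijective _ (A.bijR x)

/-- The multiplication group, generated by all translations. -/
def Mlt : Subgroup (Equiv.Perm Q) := Subgroup.closure (Set.range A.L ∪ Set.range A.R)

/-- Every inner mapping (element of the multiplication group that fixes the neutral element) is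
an automorphism. -/
def Automorphic : Prop :=
  ∀ g ∈ A.Mlt, g A.e = A.e → ∀ x y, g (A.op x y) = A.op (g x) (g y)

/-- The middle nucleus. -/
def middleNucleus : Set Q := {a | ∀ x y, A.op (A.op x a) y = A.op x (A.op a y)}

/-- Normal subloops: subloops invariant under all inner mappings. -/
structure IsNormal (M : Set Q) : Prop where
  one_mem : A.e ∈ M
  mul_mem : ∀ x ∈ M, ∀ y ∈ M, A.op x y ∈ M
  left_div : ∀ x ∈ M, ∀ y, A.op x y ∈ M → y ∈ M
  right_div : ∀ x ∈ M, ∀ y, A.op y x ∈ M → y ∈ M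
  inn_mem : ∀ g ∈ A.Mlt, g A.e = A.e → ∀ x ∈ M, g x ∈ M

/-- `x` and `y` lie in the same coset of `M`: `y ∈ x M`. -/
def Cong (M : Set Q) (x y : Q) : Prop := ∃ m ∈ M, y = A.op x m

/-- Solvable loops: there is a series `{e} = M 0 ⊆ M 1 ⊆ ... ⊆ M k = Q` of normal subloops of `Q`
such that each factor `M (i + 1) / M i` is an abelian group. -/
def Solvable : Prop :=
  ∃ (k : ℕ) (M : ℕ → Set Q), M 0 = {A.e} ∧ M k = Set.univ ∧ (∀ i ≤ k, A.IsNormal (M i)) ∧
    (∀ i < k, M i ⊆ M (i + 1)) ∧
    ∀ i < k, ∀ a ∈ M (i + 1), ∀ b ∈ M (i + 1), ∀ c ∈ M (i + 1),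
      A.Cong (M i) (A.op a b) (A.op b a) ∧
      A.Cong (M i) (A.op a (A.op b c)) (A.op (A.op a b) c)

/-- A minimal normal subloop: a normal subloop with an element different from the neutral element
which contains no smaller one. -/
def IsMinimalNormal (M : Set Q) : Prop :=
  A.IsNormal M ∧ (∃ m ∈ M, m ≠ A.e) ∧
    ∀ K : Set Q, A.IsNormal K → K ⊆ M → (∃ a ∈ K, a ≠ A.e) → K = M

end Loop

/-- the same loop as an instance of the class used in the helper files -/
@[reducible] def toLoop {Q : Type u} (A : Loop Q) : H361AL.Loop Q where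
  mul := A.op
  one := A.e
  one_mul' := A.one_op
  mul_one' := A.op_one
  left_div := by
    intro a b
    obtain ⟨x, hx⟩ := (A.bijL a).2 b
    exact ⟨x, hx, fun y hy => (A.bijL a).1 (hy.trans hx.symm)⟩
  right_div := by
    intro a b
    obtain ⟨x, hx⟩ := (A.bijR a).2 b
    exact ⟨x, hx, fun y hy => (A.bijR a).1 (hy.trans hx.symm)⟩

theorem normal (Q : Type u) [Finite Q] (A : Loop Q) (hA : A.Automorphic)
    (hodd : Odd (Nat.card Q)) (hs : A.Solvable) (M : Set Q) (hM : A.IsNormal M)
    (hne : ∃ m ∈ M, m ≠ A.e) :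
    ∃ (p : ℕ) (K : Set Q), p.Prime ∧ A.IsNormal K ∧ K ⊆ M ∧ (∃ a ∈ K, a ≠ A.e) ∧
      K ⊆ A.middleNucleus ∧ (∀ a ∈ K, ∀ b ∈ K, A.op a b = A.op b a) ∧
      ∀ a ∈ K, A.L a ^ p = 1 := by
  let _ : H361AL.Loop Q := toLoop A
  have hMlt : H361AL.Mlt Q = A.Mlt := rfl
  have _ : H361AL.Automorphic Q := ⟨fun f hf h1 x y => hA f (hMlt ▸ hf) h1 x y⟩
  have conv : ∀ S : Set Q, A.IsNormal S → Pool.Agent.H687R3.ALG.IsNormalSubloop S := fun S h =>
    { one_mem := h.one_mem
      mul_mem := h.mul_mem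
      left_div := h.left_div
      right_div := h.right_div
      inn_mem := fun g hg hg1 => h.inn_mem g (hMlt ▸ hg) hg1 }
  obtain ⟨k, S, h0, hk, hn, _, hf⟩ := hs
  have hser : Pool.Agent.W328.OD.NSer Q k S :=
    { zero := h0
      top := hk
      nrm := fun i hi => conv _ (hn i hi)
      comm := fun i hi a ha b hb => (hf i hi a ha b hb a ha).1
      assoc := fun i hi a ha b hb c hc => (hf i hi a ha b hb c hc).2 }
  obtain ⟨p, K, hp, h1, h2, h3, h4, h5, h6⟩ :=
    Pool.Agent.Y892.AN.odd_K (Q := Q) hodd ⟨k, S, hser⟩ (conv M hM) hne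
  exact ⟨p, K, hp, ⟨h1.one_mem, h1.mul_mem, h1.left_div, h1.right_div, h1.inn_mem⟩, h2, h3, h4,
    h5, h6⟩

/-- Let `Q` be a solvable automorphic loop of odd order. (1) Every normal subloop `M` with an
element different from the neutral element contains such a normal subloop `K` of `Q` which lies in
the middle nucleus, is commutative and satisfies `L_a ^ p = 1` for some prime `p` and all `a ∈ K`.
In particular `M` meets the middle nucleus nontrivially. (2) Hence every minimal normal subloop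
lies in the middle nucleus and is an elementary abelian group. -/
theorem result (Q : Type u) [Finite Q] (A : Loop Q) (hA : A.Automorphic)
    (hodd : Odd (Nat.card Q)) (hs : A.Solvable) :
    (∀ M : Set Q, A.IsNormal M → (∃ m ∈ M, m ≠ A.e) →
      ∃ (p : ℕ) (K : Set Q), p.Prime ∧ A.IsNormal K ∧ K ⊆ M ∧ (∃ a ∈ K, a ≠ A.e) ∧
        K ⊆ A.middleNucleus ∧ (∀ a ∈ K, ∀ b ∈ K, A.op a b = A.op b a) ∧
        ∀ a ∈ K, A.L a ^ p = 1) ∧
    ∀ M : Set Q, A.IsMinimalNormal M → M ⊆ A.middleNucleus ∧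
      (∀ a ∈ M, ∀ b ∈ M, A.op a b = A.op b a) ∧ ∃ p : ℕ, p.Prime ∧ ∀ a ∈ M, A.L a ^ p = 1 := by
  refine ⟨normal Q A hA hodd hs, ?_⟩
  rintro M ⟨hM, hne, hmin⟩
  obtain ⟨p, K, hp, h1, h2, h3, h4, h5, h6⟩ := normal Q A hA hodd hs M hM hne
  rw [← hmin K h1 h2 h3]
  exact ⟨h4, h5, p, hp, h6⟩

end Pool.Agent.Results.MP_7090ba_al.NormalSubloops
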